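import Pool.Agent.helper90.IV.Spec

/-!
# MP_26dbae_co, module GL1: good 4-walks
-/

set_option autoImplicit false

open scoped BigOperators

namespace Pool.Agent.helper5.IV

open Pool.Agent.helper23.TH Pool.Agent.KS Pool.Agent.IV

noncomputable section

open Classical

section
variable {V X : Type} [Fintype V]

/-- indicator -/
def ind (P : Prop) : ℝ := if P then 1 else 0

theorem ite_ind (P : Prop) [Decidable P] : (if P then (1 : ℝ) else 0) = ind P := by
  unfold ind
  by_cases h : P <;> simp [h]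

theorem ind_nonneg (P : Prop) : 0 ≤ ind P := by unfold ind; split_ifs <;> norm_num

theorem ind_le_one (P : Prop) : ind P ≤ 1 := by unfold ind; split_ifs <;> norm_num

theorem ind_and (P Q : Prop) : ind (P ∧ Q) = ind P * ind Q := by
  unfold ind
  by_cases hP : P <;> by_cases hQ : Q <;> simp [hP, hQ]

/-- tuples of length 5 -/
def e5 : (V × V × V × V × V) ≃ (Fin 5 → V) where
  toFun x := ![x.1, x.2.1, x.2.2.1, x.2.2.2.1, x.2.2.2.2]
  invFun v := (v 0, v 1, v 2, v 3, v 4)
  left_inv _ := rfl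
  right_inv v := by
    funext i
    fin_cases i <;> rfl

theorem sum5 (f : (Fin 5 → V) → ℝ) :
    ∑ v, f v = ∑ a, ∑ b, ∑ c, ∑ d, ∑ e, f ![a, b, c, d, e] := by
  rw [← e5.sum_comp f]
  rw [Fintype.sum_prod_type]
  refine Finset.sum_congr rfl (fun a _ => ?_)
  rw [Fintype.sum_prod_type]
  refine Finset.sum_congr rfl (fun b _ => ?_)
  rw [Fintype.sum_prod_type]
  refine Finset.sum_congr rfl (fun c _ => ?_)
  rw [Fintype.sum_prod_type]
  rfl

/-- 4-walk -/
def wk (A : V → V → Prop) (v : Fin 5 → V) : Prop := ∀ i : Fin 4, A (v i.castSucc) (v i.succ)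

theorem wk_iff (A : V → V → Prop) (a b c d e : V) :
    wk A ![a, b, c, d, e] ↔ A a b ∧ A b c ∧ A c d ∧ A d e := by
  unfold wk
  constructor
  · intro h
    exact ⟨h 0, h 1, h 2, h 3⟩
  · rintro ⟨h0, h1, h2, h3⟩ i
    fin_cases i
    · exact h0
    · exact h1
    · exact h2
    · exact h3

theorem card_eq (A : V → V → Prop) (P : (Fin 5 → V) → Prop) :
    ((Finset.univ.filter fun v => wk A v ∧ P v).card : ℝ) =
      ∑ a, ∑ b, ind (A a b) * ∑ c, ind (A b c) * ∑ d, ind (A c d) * ∑ e, ind (A d e) *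
        ind (P ![a, b, c, d, e]) := by
  rw [Finset.card_filter]
  push_cast
  rw [sum5]
  refine Finset.sum_congr rfl (fun a _ => Finset.sum_congr rfl (fun b _ => ?_))
  rw [Finset.mul_sum]
  refine Finset.sum_congr rfl (fun c _ => ?_)
  rw [Finset.mul_sum, Finset.mul_sum]
  refine Finset.sum_congr rfl (fun d _ => ?_)
  rw [Finset.mul_sum, Finset.mul_sum, Finset.mul_sum]
  refine Finset.sum_congr rfl (fun e _ => ?_)
  rw [ite_ind, wk_iff]
  simp only [ind_and]
  ring

theorem sum_ind (A : V → V → Prop) (x : V) : ∑ z, ind (A x z) = deg A x := by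
  unfold ind deg
  rw [Finset.card_filter]
  push_cast
  rfl

theorem step_le (A : V → V → Prop) (k : ℝ) (hk : ∀ v, (deg A v : ℝ) ≤ k) (x : V) (f : V → ℝ) (c : ℝ)
    (hc : 0 ≤ c) (hf : ∀ z, f z ≤ c) : ∑ z, ind (A x z) * f z ≤ k * c := by
  calc ∑ z, ind (A x z) * f z ≤ ∑ z, ind (A x z) * c :=
        Finset.sum_le_sum (fun z _ => mul_le_mul_of_nonneg_left (hf z) (ind_nonneg _))
    _ = deg A x * c := by rw [← Finset.sum_mul, sum_ind]
    _ ≤ k * c := mul_le_mul_of_nonneg_right (hk x) hc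

theorem step_ge (A : V → V → Prop) (D : ℝ) (hD : ∀ v, D ≤ deg A v) (x : V) (f : V → ℝ) (c : ℝ)
    (hc : 0 ≤ c) (hf : ∀ z, c ≤ f z) : D * c ≤ ∑ z, ind (A x z) * f z := by
  calc D * c ≤ deg A x * c := mul_le_mul_of_nonneg_right (hD x) hc
    _ = ∑ z, ind (A x z) * c := by rw [← Finset.sum_mul, sum_ind]
    _ ≤ _ := Finset.sum_le_sum (fun z _ => mul_le_mul_of_nonneg_left (hf z) (ind_nonneg _))

theorem step_mul (A : V → V → Prop) (k : ℝ) (hk : ∀ v, (deg A v : ℝ) ≤ k) (x : V) (f : V → ℝ) (g c : ℝ)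
    (hc : 0 ≤ c) (hg : 0 ≤ g) (hf : ∀ z, f z ≤ g * c) : ∑ z, ind (A x z) * f z ≤ g * (k * c) := by
  have := step_le A k hk x f (g * c) (mul_nonneg hg hc) hf
  calc _ ≤ k * (g * c) := this
    _ = _ := by ring

theorem co_card (A : V → V → Prop) (p q : V → X) (h : PG A p q) (x y : V) :
    ∑ z, ind (A y z) * ind (Co p q x z) ≤ 2 := by
  have h1 : ∑ z, ind (A y z) * ind (Co p q x z) ≤
      ∑ z, ind (A y z ∧ p x = p z) + ∑ z, ind (A y z ∧ q x = q z) := by
    rw [← Finset.sum_add_distrib]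
    refine Finset.sum_le_sum (fun z _ => ?_)
    rw [← ind_and]
    unfold ind Co
    by_cases hA : A y z <;> by_cases h1 : p x = p z <;> by_cases h2 : q x = q z <;>
      simp [hA, h1, h2]
  have h2 : ∑ z, ind (A y z ∧ p x = p z) ≤ 1 := by
    have : ∑ z, ind (A y z ∧ p x = p z) = ((Finset.univ.filter fun z => A y z ∧ p x = p z).card : ℝ) := by
      rw [Finset.card_filter]
      push_cast
      simp only [ite_ind]
    rw [this]
    have h3 : (Finset.univ.filter fun z => A y z ∧ p x = p z).card ≤ 1 := by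
      rw [Finset.card_le_one]
      intro a ha b hb
      rw [Finset.mem_filter] at ha hb
      exact h.inj1 y a b ha.2.1 hb.2.1 (ha.2.2.symm.trans hb.2.2)
    exact_mod_cast h3
  have h3 : ∑ z, ind (A y z ∧ q x = q z) ≤ 1 := by
    have : ∑ z, ind (A y z ∧ q x = q z) = ((Finset.univ.filter fun z => A y z ∧ q x = q z).card : ℝ) := by
      rw [Finset.card_filter]
      push_cast
      simp only [ite_ind]
    rw [this]
    have h3 : (Finset.univ.filter fun z => A y z ∧ q x = q z).card ≤ 1 := by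
      rw [Finset.card_le_one]
      intro a ha b hb
      rw [Finset.mem_filter] at ha hb
      exact h.inj2 y a b ha.2.1 hb.2.1 (ha.2.2.symm.trans hb.2.2)
    exact_mod_cast h3
  linarith

theorem co_le (A : V → V → Prop) (p q : V → X) (h : PG A p q) (x y : V) (f : V → ℝ) (c : ℝ) (hc : 0 ≤ c)
    (hf : ∀ z, f z ≤ ind (Co p q x z) * c) : ∑ z, ind (A y z) * f z ≤ 2 * c := by
  calc ∑ z, ind (A y z) * f z ≤ ∑ z, ind (A y z) * ind (Co p q x z) * c := by
        refine Finset.sum_le_sum (fun z _ => ?_)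
        rw [mul_assoc]
        exact mul_le_mul_of_nonneg_left (hf z) (ind_nonneg _)
    _ = (∑ z, ind (A y z) * ind (Co p q x z)) * c := by rw [← Finset.sum_mul]
    _ ≤ 2 * c := mul_le_mul_of_nonneg_right (co_card A p q h x y) hc

theorem sum_const_le (f : V → ℝ) (c : ℝ) (hf : ∀ z, f z ≤ c) : ∑ z, f z ≤ Fintype.card V * c := by
  calc ∑ z, f z ≤ ∑ _z : V, c := Finset.sum_le_sum (fun z _ => hf z)
    _ = _ := by simp

/-- heavy pair -/
def hv (A : V → V → Prop) (C : ℕ) (a c : V) : Prop := a ≠ c ∧ C ≤ cd A a c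

theorem hw2_eq (A : V → V → Prop) (C : ℕ) :
    (hw2 A C : ℝ) = ∑ b, ∑ a, ind (A b a) * ∑ c, ind (A b c) * ind (hv A C a c) := by
  unfold hw2
  push_cast
  refine Finset.sum_congr rfl (fun b _ => ?_)
  rw [Finset.card_filter]
  push_cast
  rw [Fintype.sum_prod_type]
  refine Finset.sum_congr rfl (fun a _ => ?_)
  rw [Finset.mul_sum]
  refine Finset.sum_congr rfl (fun c _ => ?_)
  rw [ite_ind]
  have : (A b a ∧ A b c ∧ a ≠ c ∧ C ≤ cd A a c) = (A b a ∧ A b c ∧ hv A C a c) := rfl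
  rw [this, ind_and, ind_and]

/-- number of walks with a property -/
def N5 (A : V → V → Prop) (P : (Fin 5 → V) → Prop) : ℕ := (Finset.univ.filter fun v => wk A v ∧ P v).card

theorem N5_all (A : V → V → Prop) (D : ℝ) (hD0 : 0 ≤ D) (hD : ∀ v, D ≤ deg A v) :
    Fintype.card V * D ^ 4 ≤ N5 A (fun _ => True) := by
  unfold N5
  rw [card_eq]
  have : (Fintype.card V : ℝ) * D ^ 4 = ∑ _a : V, D * (D * (D * (D * 1))) := by
    rw [Finset.sum_const, Finset.card_univ, nsmul_eq_mul]
    ring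
  rw [this]
  refine Finset.sum_le_sum (fun a _ => ?_)
  refine step_ge A D hD _ _ _ (by positivity) (fun b => ?_)
  refine step_ge A D hD _ _ _ (by positivity) (fun c => ?_)
  refine step_ge A D hD _ _ _ (by positivity) (fun d => ?_)
  refine step_ge A D hD _ _ _ (by positivity) (fun e => ?_)
  simp [ind]

theorem N5_co02 (A : V → V → Prop) (p q : V → X) (h : PG A p q) (k : ℝ) (hk0 : 0 ≤ k)
    (hk : ∀ v, (deg A v : ℝ) ≤ k) (i j : Fin 5) (hij : (i = 0 ∧ j = 2)) :
    (N5 A (fun v => Co p q (v i) (v j)) : ℝ) ≤ Fintype.card V * (2 * k ^ 3) := by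
  obtain ⟨rfl, rfl⟩ := hij
  unfold N5
  rw [card_eq]
  refine sum_const_le _ _ (fun a => ?_)
  have e : 2 * k ^ 3 = k * (2 * (k * (k * 1))) := by ring
  rw [e]
  refine step_le A k hk _ _ _ (by positivity) (fun b => ?_)
  refine co_le A p q h a b _ _ (by positivity) (fun c => ?_)
  refine step_mul A k hk _ _ _ _ (by positivity) (ind_nonneg _) (fun d => ?_)
  refine step_mul A k hk _ _ _ _ (by positivity) (ind_nonneg _) (fun e => ?_)
  simp

theorem N5_co3 (A : V → V → Prop) (p q : V → X) (h : PG A p q) (k : ℝ) (hk0 : 0 ≤ k)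
    (hk : ∀ v, (deg A v : ℝ) ≤ k) (i : Fin 5) (hi : i = 0 ∨ i = 1) :
    (N5 A (fun v => Co p q (v i) (v 3)) : ℝ) ≤ Fintype.card V * (2 * k ^ 3) := by
  unfold N5
  rw [card_eq]
  refine sum_const_le _ _ (fun a => ?_)
  have e : 2 * k ^ 3 = k * (k * (2 * (k * 1))) := by ring
  rw [e]
  refine step_le A k hk _ _ _ (by positivity) (fun b => ?_)
  refine step_le A k hk _ _ _ (by positivity) (fun c => ?_)
  rcases hi with rfl | rfl
  · refine co_le A p q h a c _ _ (by positivity) (fun d => ?_)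
    refine step_mul A k hk _ _ _ _ (by positivity) (ind_nonneg _) (fun e => ?_)
    simp
  · refine co_le A p q h b c _ _ (by positivity) (fun d => ?_)
    refine step_mul A k hk _ _ _ _ (by positivity) (ind_nonneg _) (fun e => ?_)
    simp

theorem N5_co4 (A : V → V → Prop) (p q : V → X) (h : PG A p q) (k : ℝ) (hk0 : 0 ≤ k)
    (hk : ∀ v, (deg A v : ℝ) ≤ k) (i : Fin 5) (hi : i = 0 ∨ i = 1 ∨ i = 2) :
    (N5 A (fun v => Co p q (v i) (v 4)) : ℝ) ≤ Fintype.card V * (2 * k ^ 3) := by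
  unfold N5
  rw [card_eq]
  refine sum_const_le _ _ (fun a => ?_)
  have e : 2 * k ^ 3 = k * (k * (k * (2 * 1))) := by ring
  rw [e]
  refine step_le A k hk _ _ _ (by positivity) (fun b => ?_)
  refine step_le A k hk _ _ _ (by positivity) (fun c => ?_)
  refine step_le A k hk _ _ _ (by positivity) (fun d => ?_)
  rcases hi with rfl | rfl | rfl
  · refine co_le A p q h a d _ _ (by positivity) (fun e => ?_)
    simp
  · refine co_le A p q h b d _ _ (by positivity) (fun e => ?_)
    simp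
  · refine co_le A p q h c d _ _ (by positivity) (fun e => ?_)
    simp

/-- reversed tuples -/
theorem N5_rev (A : V → V → Prop) (hs : ∀ a b, A a b → A b a) (P : (Fin 5 → V) → Prop) :
    N5 A P = N5 A (fun v => P (fun i => v i.rev)) := by
  unfold N5
  refine Finset.card_bij' (fun v _ => fun i => v i.rev) (fun v _ => fun i => v i.rev) ?_ ?_ ?_ ?_
  · intro v hv
    rw [Finset.mem_filter] at hv ⊢
    refine ⟨Finset.mem_univ _, fun i => ?_, ?_⟩
    · have h1 := hs _ _ (hv.2.1 i.rev)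
      show A (v i.castSucc.rev) (v i.succ.rev)
      rw [Fin.rev_castSucc, Fin.rev_succ]
      exact h1
    · have : (fun i : Fin 5 => (fun i => v i.rev) i.rev) = v := by
        funext i; simp
      show P (fun i : Fin 5 => (fun i => v i.rev) i.rev)
      rw [this]
      exact hv.2.2
  · intro v hv
    rw [Finset.mem_filter] at hv ⊢
    refine ⟨Finset.mem_univ _, fun i => ?_, hv.2.2⟩
    have h1 := hs _ _ (hv.2.1 i.rev)
    show A (v i.castSucc.rev) (v i.succ.rev)
    rw [Fin.rev_castSucc, Fin.rev_succ]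
    exact h1
  · intro v _
    funext i; simp
  · intro v _
    funext i; simp

theorem N5_h02 (A : V → V → Prop) (hs : ∀ a b, A a b → A b a) (C : ℕ) (k : ℝ) (hk0 : 0 ≤ k)
    (hk : ∀ v, (deg A v : ℝ) ≤ k) :
    (N5 A (fun v => hv A C (v 0) (v 2)) : ℝ) ≤ hw2 A C * k ^ 2 := by
  unfold N5
  rw [card_eq, hw2_eq, Finset.sum_comm, Finset.sum_mul]
  refine Finset.sum_le_sum (fun b _ => ?_)
  rw [Finset.sum_mul]
  refine Finset.sum_le_sum (fun a _ => ?_)
  have : ind (A a b) = ind (A b a) := by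
    have h : A a b ↔ A b a := ⟨hs _ _, hs _ _⟩
    rw [propext h]
  rw [this, mul_assoc]
  refine mul_le_mul_of_nonneg_left ?_ (ind_nonneg _)
  rw [Finset.sum_mul]
  refine Finset.sum_le_sum (fun c _ => ?_)
  rw [mul_assoc]
  refine mul_le_mul_of_nonneg_left ?_ (ind_nonneg _)
  have e : k ^ 2 = k * (k * 1) := by ring
  rw [e]
  refine step_mul A k hk _ _ _ _ (by positivity) (ind_nonneg _) (fun d => ?_)
  refine step_mul A k hk _ _ _ _ (by positivity) (ind_nonneg _) (fun e => ?_)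
  simp

theorem hv_symm (A : V → V → Prop) (C : ℕ) (a c : V) : hv A C a c ↔ hv A C c a := by
  unfold hv
  have : cd A a c = cd A c a := by
    unfold cd
    congr 1
    ext m
    simp only [Finset.mem_filter, Finset.mem_univ, true_and]
    exact and_comm
  rw [this, ne_comm]

theorem N5_h24 (A : V → V → Prop) (hs : ∀ a b, A a b → A b a) (C : ℕ) (k : ℝ) (hk0 : 0 ≤ k)
    (hk : ∀ v, (deg A v : ℝ) ≤ k) :
    (N5 A (fun v => hv A C (v 2) (v 4)) : ℝ) ≤ hw2 A C * k ^ 2 := by
  rw [N5_rev A hs]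
  have : (fun v : Fin 5 → V => hv A C (v (Fin.rev 2)) (v (Fin.rev 4))) =
      fun v => hv A C (v 0) (v 2) := by
    funext v
    have h1 : (Fin.rev 2 : Fin 5) = 2 := by decide
    have h2 : (Fin.rev 4 : Fin 5) = 0 := by decide
    rw [h1, h2]
    exact propext (hv_symm A C _ _)
  show (N5 A (fun v : Fin 5 → V => hv A C (v (Fin.rev 2)) (v (Fin.rev 4))) : ℝ) ≤ _
  rw [this]
  exact N5_h02 A hs C k hk0 hk

theorem N5_h13 (A : V → V → Prop) (hs : ∀ a b, A a b → A b a) (C : ℕ) (k : ℝ) (hk0 : 0 ≤ k)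
    (hk : ∀ v, (deg A v : ℝ) ≤ k) :
    (N5 A (fun v => hv A C (v 1) (v 3)) : ℝ) ≤ hw2 A C * k ^ 2 := by
  unfold N5
  rw [card_eq, hw2_eq, Finset.sum_mul]
  have hsy : ∀ a b, ind (A a b) = ind (A b a) := by
    intro a b
    have h : A a b ↔ A b a := ⟨hs _ _, hs _ _⟩
    rw [propext h]
  -- sum over b, c, d with a inside
  have h1 : ∑ a, ∑ b, ind (A a b) * ∑ c, ind (A b c) * ∑ d, ind (A c d) * ∑ e, ind (A d e) *
        ind (hv A C (![a, b, c, d, e] 1) (![a, b, c, d, e] 3)) =
      ∑ b, (∑ a, ind (A b a)) * ∑ c, ind (A b c) * ∑ d, ind (A c d) * ∑ e, ind (A d e) *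
        ind (hv A C b d) := by
    rw [Finset.sum_comm]
    refine Finset.sum_congr rfl (fun b _ => ?_)
    rw [Finset.sum_mul]
    refine Finset.sum_congr rfl (fun a _ => ?_)
    rw [hsy a b]
    rfl
  rw [h1]
  have h2 : ∑ b, (∑ a, ind (A b a)) * ∑ c, ind (A b c) * ∑ d, ind (A c d) * ∑ e, ind (A d e) *
        ind (hv A C b d) ≤ ∑ b, ∑ c, k * (ind (A b c) * ∑ d, ind (A c d) * ∑ e, ind (A d e) *
        ind (hv A C b d)) := by
    refine Finset.sum_le_sum (fun b _ => ?_)
    rw [← Finset.mul_sum]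
    refine mul_le_mul_of_nonneg_right ?_ ?_
    · rw [sum_ind]; exact hk b
    · refine Finset.sum_nonneg (fun c _ => mul_nonneg (ind_nonneg _) (Finset.sum_nonneg (fun d _ =>
        mul_nonneg (ind_nonneg _) (Finset.sum_nonneg (fun e _ => mul_nonneg (ind_nonneg _)
        (ind_nonneg _))))))
  refine h2.trans ?_
  rw [Finset.sum_comm]
  refine Finset.sum_le_sum (fun c _ => ?_)
  rw [Finset.sum_mul]
  refine Finset.sum_le_sum (fun b _ => ?_)
  rw [hsy b c]
  have h3 : ∑ d, ind (A c d) * ∑ e, ind (A d e) * ind (hv A C b d) ≤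
      ∑ d, ind (A c d) * (ind (hv A C b d) * k) := by
    refine Finset.sum_le_sum (fun d _ => mul_le_mul_of_nonneg_left ?_ (ind_nonneg _))
    have := step_mul A k hk d (fun _ => ind (hv A C b d)) (ind (hv A C b d)) 1 (by norm_num)
      (ind_nonneg _) (fun z => by simp)
    simpa using this
  have h4 : ∑ d, ind (A c d) * (ind (hv A C b d) * k) = (∑ d, ind (A c d) * ind (hv A C b d)) * k := by
    rw [Finset.sum_mul]
    refine Finset.sum_congr rfl (fun d _ => ?_)
    ring
  rw [h4] at h3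
  calc k * (ind (A c b) * ∑ d, ind (A c d) * ∑ e, ind (A d e) * ind (hv A C b d)) ≤
        k * (ind (A c b) * ((∑ d, ind (A c d) * ind (hv A C b d)) * k)) :=
        mul_le_mul_of_nonneg_left (mul_le_mul_of_nonneg_left h3 (ind_nonneg _)) hk0
    _ = _ := by ring

/-- the walks are good or in one of nine sets -/
theorem N5_cover (A : V → V → Prop) (p q : V → X) (C : ℕ) (h : PG A p q) :
    N5 A (fun _ => True) ≤ (W4 A p q C).card +
      (N5 A (fun v => hv A C (v 0) (v 2)) + N5 A (fun v => hv A C (v 1) (v 3)) +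
        N5 A (fun v => hv A C (v 2) (v 4))) +
      (N5 A (fun v => Co p q (v 0) (v 2)) + N5 A (fun v => Co p q (v 0) (v 3)) +
        N5 A (fun v => Co p q (v 1) (v 3)) + N5 A (fun v => Co p q (v 0) (v 4)) +
        N5 A (fun v => Co p q (v 1) (v 4)) + N5 A (fun v => Co p q (v 2) (v 4))) := by
  have hsub : (Finset.univ.filter fun v => wk A v ∧ True) ⊆ W4 A p q C ∪
      (((Finset.univ.filter fun v => wk A v ∧ hv A C (v 0) (v 2)) ∪
        (Finset.univ.filter fun v => wk A v ∧ hv A C (v 1) (v 3))) ∪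
        (Finset.univ.filter fun v => wk A v ∧ hv A C (v 2) (v 4))) ∪
      ((((((Finset.univ.filter fun v => wk A v ∧ Co p q (v 0) (v 2)) ∪
        (Finset.univ.filter fun v => wk A v ∧ Co p q (v 0) (v 3))) ∪
        (Finset.univ.filter fun v => wk A v ∧ Co p q (v 1) (v 3))) ∪
        (Finset.univ.filter fun v => wk A v ∧ Co p q (v 0) (v 4))) ∪
        (Finset.univ.filter fun v => wk A v ∧ Co p q (v 1) (v 4))) ∪
        (Finset.univ.filter fun v => wk A v ∧ Co p q (v 2) (v 4))) := by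
    intro v hv0
    rw [Finset.mem_filter] at hv0
    have hw := hv0.2.1
    by_contra hcon
    simp only [Finset.mem_union, Finset.mem_filter, Finset.mem_univ, true_and, hw, not_or] at hcon
    obtain ⟨⟨hW, ⟨h02, h13⟩, h24⟩, ⟨⟨⟨⟨c02, c03⟩, c13⟩, c04⟩, c14⟩, c24⟩ := hcon
    apply hW
    unfold W4
    rw [Finset.mem_filter]
    have a01 : A (v 0) (v 1) := hw 0
    have a12 : A (v 1) (v 2) := hw 1
    have a23 : A (v 2) (v 3) := hw 2
    have a34 : A (v 3) (v 4) := hw 3
    have adj : ∀ u w, A u w → ¬ Co p q u w := by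
      rintro u w huw (h1 | h1)
      · exact h.ne1 u w huw h1
      · exact h.ne2 u w huw h1
    have cs : ∀ u w, ¬ Co p q u w → ¬ Co p q w u := by
      rintro u w hn (h1 | h1)
      · exact hn (Or.inl h1.symm)
      · exact hn (Or.inr h1.symm)
    have ne_of : ∀ u w, ¬ Co p q u w → u ≠ w := by
      rintro u w hn rfl
      exact hn (Or.inl rfl)
    refine ⟨Finset.mem_univ _, hw, ?_, ?_, ?_, ?_⟩
    · have key : ∀ i j : Fin 5, i < j → ¬ Co p q (v i) (v j) := by
        intro i j hij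
        fin_cases i <;> fin_cases j <;> first
          | exact absurd hij (by decide)
          | exact adj _ _ a01
          | exact adj _ _ a12
          | exact adj _ _ a23
          | exact adj _ _ a34
          | exact c02
          | exact c03
          | exact c04
          | exact c13
          | exact c14
          | exact c24
      intro i j hij
      rcases lt_or_gt_of_ne hij with h1 | h1
      · exact key i j h1
      · exact cs _ _ (key j i h1)
    · by_contra hc
      exact h02 ⟨ne_of _ _ c02, not_lt.1 hc⟩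
    · by_contra hc
      exact h13 ⟨ne_of _ _ c13, not_lt.1 hc⟩
    · by_contra hc
      exact h24 ⟨ne_of _ _ c24, not_lt.1 hc⟩
  have h1 := Finset.card_le_card hsub
  unfold N5
  refine le_trans (Finset.card_le_card (fun v hv => ?_)) (h1.trans ?_)
  · have hv2 := (@Finset.mem_filter _ _ (_) _ _).1 hv
    exact Finset.mem_filter.2 hv2
  refine (Finset.card_union_le _ _).trans (Nat.add_le_add ?_ ?_)
  · refine (Finset.card_union_le _ _).trans (Nat.add_le_add le_rfl ?_)
    refine (Finset.card_union_le _ _).trans (Nat.add_le_add ?_ le_rfl)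
    exact Finset.card_union_le _ _
  · refine (Finset.card_union_le _ _).trans (Nat.add_le_add ?_ le_rfl)
    refine (Finset.card_union_le _ _).trans (Nat.add_le_add ?_ le_rfl)
    refine (Finset.card_union_le _ _).trans (Nat.add_le_add ?_ le_rfl)
    refine (Finset.card_union_le _ _).trans (Nat.add_le_add ?_ le_rfl)
    exact Finset.card_union_le _ _

end

theorem GL1 : GL1_stmt := by
  intro κ hκ
  refine ⟨1 / (12 * κ ^ 2), 48 * κ ^ 3, by positivity, ?_⟩
  intro V X _ A p q C D hPG hD0 hD hlo hhi hhw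
  have hk0 : 0 ≤ κ * D := by positivity
  have hs := hPG.symm
  have h0 := N5_all A D hD.le hlo
  have h1 := N5_h02 A hs C (κ * D) hk0 hhi
  have h2 := N5_h13 A hs C (κ * D) hk0 hhi
  have h3 := N5_h24 A hs C (κ * D) hk0 hhi
  have c1 := N5_co02 A p q hPG (κ * D) hk0 hhi 0 2 ⟨rfl, rfl⟩
  have c2 := N5_co3 A p q hPG (κ * D) hk0 hhi 0 (Or.inl rfl)
  have c3 := N5_co3 A p q hPG (κ * D) hk0 hhi 1 (Or.inr rfl)
  have c4 := N5_co4 A p q hPG (κ * D) hk0 hhi 0 (Or.inl rfl)
  have c5 := N5_co4 A p q hPG (κ * D) hk0 hhi 1 (Or.inr (Or.inl rfl))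
  have c6 := N5_co4 A p q hPG (κ * D) hk0 hhi 2 (Or.inr (Or.inr rfl))
  have hcov : (N5 A (fun _ => True) : ℝ) ≤ ((W4 A p q C).card : ℝ) +
      ((N5 A (fun v => hv A C (v 0) (v 2)) : ℝ) + N5 A (fun v => hv A C (v 1) (v 3)) +
        N5 A (fun v => hv A C (v 2) (v 4))) +
      ((N5 A (fun v => Co p q (v 0) (v 2)) : ℝ) + N5 A (fun v => Co p q (v 0) (v 3)) +
        N5 A (fun v => Co p q (v 1) (v 3)) + N5 A (fun v => Co p q (v 0) (v 4)) +
        N5 A (fun v => Co p q (v 1) (v 4)) + N5 A (fun v => Co p q (v 2) (v 4))) := by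
    exact_mod_cast N5_cover A p q C hPG
  set n : ℝ := (Fintype.card V : ℝ) with hn
  have hn0 : 0 ≤ n := Nat.cast_nonneg _
  have hh : (hw2 A C : ℝ) * (κ * D) ^ 2 ≤ n * D ^ 4 / 12 := by
    calc (hw2 A C : ℝ) * (κ * D) ^ 2 ≤ (1 / (12 * κ ^ 2) * n * D ^ 2) * (κ * D) ^ 2 :=
          mul_le_mul_of_nonneg_right hhw (by positivity)
      _ = n * D ^ 4 / 12 := by
          have : κ ≠ 0 := by positivity
          field_simp
  have hc : n * (2 * (κ * D) ^ 3) ≤ n * D ^ 4 / 24 := by
    have h4 : 48 * κ ^ 3 * D ^ 3 ≤ D * D ^ 3 := mul_le_mul_of_nonneg_right hD0 (by positivity)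
    have h5 : 2 * (κ * D) ^ 3 ≤ D ^ 4 / 24 := by
      have : 2 * (κ * D) ^ 3 = (48 * κ ^ 3 * D ^ 3) / 24 := by ring
      rw [this]
      have : D ^ 4 / 24 = (D * D ^ 3) / 24 := by ring
      rw [this]
      linarith
    calc n * (2 * (κ * D) ^ 3) ≤ n * (D ^ 4 / 24) := mul_le_mul_of_nonneg_left h5 hn0
      _ = _ := by ring
  linarith

end

end Pool.Agent.helper5.IV
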